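import Pool.Agent.Helper36.Ruzsa.Main

/-!
MP_64e2fc_nt: a lower bound for `K_m` in terms of Ruzsa's number `R_m`, which is the bound
`√(3m)` of the question for all `m` with `R_m ≤ 7`.
-/

namespace Pool.Agent.Results.MP_64e2fc_nt.RuzsaNumberBound

open Pool.Agent.Helper36.Ruzsa

/-- For all large `m`, `R_m ≥ 6` and `K_m ≥ (1-ε) √((2 + 2/(2⌊R_m/2⌋ - 4)) m)`. -/
theorem result (ε : ℝ) (hε : 0 < ε) : ∃ m₀ : ℕ, ∀ m ≥ m₀, 6 ≤ ruzsa m ∧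
    (1 - ε) * √((2 + 2 / (2 * ((ruzsa m / 2 : ℕ) : ℝ) - 4)) * m) ≤ kmin m :=
  main ε hε

end Pool.Agent.Results.MP_64e2fc_nt.RuzsaNumberBound
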